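import Pool.Agent.Helper226.KRK.Lemmas

namespace Pool.Agent.Helper226.KRK

noncomputable section

def band (x y : Bool) : Bool := Bool.rec (motive := fun _ => Bool) false y x
def bor (x y : Bool) : Bool := Bool.rec (motive := fun _ => Bool) y true x
def bnot (x : Bool) : Bool := Bool.rec (motive := fun _ => Bool) true false x
def bif' (c x y : Bool) : Bool := Bool.rec (motive := fun _ => Bool) y x c
def nif (c : Bool) (x y : Nat) : Nat := Bool.rec (motive := fun _ => Nat) y x c

theorem band_true {x y : Bool} : band x y = true ↔ x = true ∧ y = true := by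
  cases x <;> cases y <;> simp [band]
theorem bor_true {x y : Bool} : bor x y = true ↔ x = true ∨ y = true := by
  cases x <;> cases y <;> simp [bor]
theorem bnot_true {x : Bool} : bnot x = true ↔ ¬ x = true := by
  cases x <;> simp [bnot]
theorem bif_true {c x y : Bool} : bif' c x y = true ↔ (c = true → x = true) ∧ (¬ c = true → y = true) := by
  cases c <;> simp [bif']
theorem nif_eq {c : Bool} {x y : Nat} : nif c x y = if c = true then x else y := by
  cases c <;> simp [nif]

def allR (n : Nat) (f : Nat → Bool) : Bool :=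
  Nat.rec (motive := fun _ => Bool) true (fun i ih => band (f i) ih) n
def anyR (n : Nat) (f : Nat → Bool) : Bool :=
  Nat.rec (motive := fun _ => Bool) false (fun i ih => bor (f i) ih) n

theorem allR_true {n : Nat} {f : Nat → Bool} : allR n f = true ↔ ∀ i, i < n → f i = true := by
  induction n with
  | zero => simp [allR]
  | succ n ih =>
    have : allR (n + 1) f = band (f n) (allR n f) := rfl
    rw [this, band_true, ih]
    constructor
    · rintro ⟨h1, h2⟩ i hi
      rcases Nat.lt_succ_iff_lt_or_eq.1 hi with h | rfl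
      · exact h2 i h
      · exact h1
    · intro h
      exact ⟨h n (Nat.lt_succ_self n), fun i hi => h i (Nat.lt_succ_of_lt hi)⟩

theorem anyR_true {n : Nat} {f : Nat → Bool} : anyR n f = true ↔ ∃ i, i < n ∧ f i = true := by
  induction n with
  | zero => simp [anyR]
  | succ n ih =>
    have : anyR (n + 1) f = bor (f n) (anyR n f) := rfl
    rw [this, bor_true, ih]
    constructor
    · rintro (h | ⟨i, h1, h2⟩)
      · exact ⟨n, Nat.lt_succ_self n, h⟩
      · exact ⟨i, Nat.lt_succ_of_lt h1, h2⟩
    · rintro ⟨i, h1, h2⟩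
      rcases Nat.lt_succ_iff_lt_or_eq.1 h1 with h | rfl
      · exact Or.inr ⟨i, h, h2⟩
      · exact Or.inl h2

inductive Tr where
  | l (n : Nat) : Tr
  | b (k : Nat) (x y : Tr) : Tr

def Tr.get (t : Tr) (i : Nat) : Nat :=
  Tr.rec (motive := fun _ => Nat) (fun n => n) (fun k _ _ ihx ihy => nif (Nat.ble k i) ihy ihx) t

def nearB (ax ay bx by' : Nat) : Bool :=
  band (Nat.ble ax (Nat.succ bx)) (band (Nat.ble bx (Nat.succ ax))
    (band (Nat.ble ay (Nat.succ by')) (Nat.ble by' (Nat.succ ay))))

theorem nearB_true {ax ay bx by' : Nat} :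
    nearB ax ay bx by' = true ↔ (ax ≤ bx + 1 ∧ bx ≤ ax + 1 ∧ ay ≤ by' + 1 ∧ by' ≤ ay + 1) := by
  simp only [nearB, band_true, Nat.ble_eq, Nat.succ_eq_add_one]

def btwB (a x b : Nat) : Bool :=
  bor (band (Nat.ble (Nat.succ a) x) (Nat.ble (Nat.succ x) b))
    (band (Nat.ble (Nat.succ b) x) (Nat.ble (Nat.succ x) a))

theorem btwB_true {a x b : Nat} : btwB a x b = true ↔ Btw a x b := by
  simp only [btwB, band_true, bor_true, Nat.ble_eq, Nat.succ_eq_add_one, Btw]
  omega

def openB (sx sy kx ky tx ty : Nat) : Bool :=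
  bor (band (Nat.beq sx tx) (band (bnot (Nat.beq sy ty)) (bnot (band (Nat.beq kx tx) (btwB sy ky ty)))))
    (band (Nat.beq sy ty) (band (bnot (Nat.beq sx tx)) (bnot (band (Nat.beq ky ty) (btwB sx kx tx)))))

theorem openB_true {sx sy kx ky tx ty : Nat} :
    openB sx sy kx ky tx ty = true ↔ Open (sx, sy) (kx, ky) (tx, ty) := by
  simp only [openB, band_true, bor_true, bnot_true, Nat.beq_eq, btwB_true, Open, ne_eq]

end

end Pool.Agent.Helper226.KRK
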