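import Mathlib

/-!
# King and rook against king: positions, moves, forced mate
-/

namespace Pool.Agent.Helper226.KRK

/-- A square: (file, rank), file 1 = a, file 2 = b, .... -/
abbrev Sq := ℕ × ℕ

/-- Squares of the white king, the white rook and the black king. -/
@[ext] structure Pos where
  wk : Sq
  wr : Sq
  bk : Sq

/-- `s` is a square of the board with `m` files and `n` ranks (`⊤` means unbounded). -/
def On (m n : ℕ∞) (s : Sq) : Prop :=
  1 ≤ s.1 ∧ 1 ≤ s.2 ∧ (s.1 : ℕ∞) ≤ m ∧ (s.2 : ℕ∞) ≤ n

/-- King distance at most one (equality allowed). -/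
def Near (a b : Sq) : Prop :=
  a.1 ≤ b.1 + 1 ∧ b.1 ≤ a.1 + 1 ∧ a.2 ≤ b.2 + 1 ∧ b.2 ≤ a.2 + 1

/-- `x` is strictly between `a` and `b`. -/
def Btw (a x b : ℕ) : Prop := (a < x ∧ x < b) ∨ (b < x ∧ x < a)

/-- `s` and `t` are different squares of one file or of one rank, and `k` is not
strictly between them. -/
def Open (s k t : Sq) : Prop :=
  (s.1 = t.1 ∧ s.2 ≠ t.2 ∧ ¬ (k.1 = t.1 ∧ Btw s.2 k.2 t.2)) ∨
  (s.2 = t.2 ∧ s.1 ≠ t.1 ∧ ¬ (k.2 = t.2 ∧ Btw s.1 k.1 t.1))

/-- White's legal moves: a king move to a square of the board that is not the rook's and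
not next to the black king, or a rook move along its file or rank, neither passing over
nor landing on a king. -/
def WMove (m n : ℕ∞) (p q : Pos) : Prop :=
  (On m n q.wk ∧ Near p.wk q.wk ∧ q.wk ≠ p.wk ∧ q.wk ≠ p.wr ∧ ¬ Near q.wk p.bk ∧
    q.wr = p.wr ∧ q.bk = p.bk) ∨
  (On m n q.wr ∧ Open p.wr p.wk q.wr ∧ Open p.wr p.bk q.wr ∧ q.wr ≠ p.wk ∧ q.wr ≠ p.bk ∧
    q.wk = p.wk ∧ q.bk = p.bk)

/-- Black's legal moves that neither capture nor leave the board: a king move to a square
of the board that is not the rook's, not next to the white king and not attacked by the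
rook (the black king no longer stands in the rook's way, the white king may). -/
def BMove (m n : ℕ∞) (p q : Pos) : Prop :=
  On m n q.bk ∧ Near p.bk q.bk ∧ q.bk ≠ p.bk ∧ ¬ Near q.bk p.wk ∧ q.bk ≠ p.wr ∧
    ¬ Open p.wr p.wk q.bk ∧ q.wk = p.wk ∧ q.wr = p.wr

/-- Black can capture the rook: it is next to the black king and not protected. -/
def BCapture (p : Pos) : Prop := Near p.bk p.wr ∧ ¬ Near p.wr p.wk

/-- Black can leave the board across the east edge (file `m`) or the north edge
(rank `n`); never possible across an infinite side. -/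
def BExit (m n : ℕ∞) (p : Pos) : Prop := (p.bk.1 : ℕ∞) = m ∨ (p.bk.2 : ℕ∞) = n

/-- The black king is in check. -/
def Check (p : Pos) : Prop := Open p.wr p.wk p.bk

/-- White, to move at `p`, can force checkmate: some move leads to a position in which
Black can neither capture the rook nor leave the board, and which is either checkmate or
one where Black has a move and White can force checkmate after each of them. (Stalemate
is not a win.) -/
inductive ForcesMate (m n : ℕ∞) : Pos → Prop
  | mate (p q : Pos) : WMove m n p q → ¬ BCapture q → ¬ BExit m n q → Check q →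
      (∀ r, ¬ BMove m n q r) → ForcesMate m n p
  | step (p q : Pos) : WMove m n p q → ¬ BCapture q → ¬ BExit m n q →
      (∃ r, BMove m n q r) → (∀ r, BMove m n q r → ForcesMate m n r) → ForcesMate m n p

/-- White, to move at `p`, can force checkmate within `k` moves. -/
def MateIn (m n : ℕ∞) : ℕ → Pos → Prop
  | 0, _ => False
  | k + 1, p => ∃ q, WMove m n p q ∧ ¬ BCapture q ∧ ¬ BExit m n q ∧
      ((Check q ∧ ∀ r, ¬ BMove m n q r) ∨
        ((∃ r, BMove m n q r) ∧ ∀ r, BMove m n q r → MateIn m n k r))

/-- White king a1, white rook b2, black king c3. -/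
def start : Pos := ⟨(1, 1), (2, 2), (3, 3)⟩

end Pool.Agent.Helper226.KRK
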