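import Pool.Agent.Helper226.KRK.Defs

namespace Pool.Agent.Helper226.KRK

theorem MateIn.forces {m n : ℕ∞} : ∀ {k : ℕ} {p : Pos}, MateIn m n k p → ForcesMate m n p := by
  intro k
  induction k with
  | zero => intro p h; exact h.elim
  | succ k ih =>
    rintro p ⟨q, h1, h2, h3, h4⟩
    rcases h4 with ⟨h5, h6⟩ | ⟨h5, h6⟩
    · exact .mate p q h1 h2 h3 h5 h6
    · exact .step p q h1 h2 h3 h5 (fun r hr => ih (h6 r hr))

/-- reflection in the diagonal -/
def sw (s : Sq) : Sq := (s.2, s.1)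
def Pos.sw (p : Pos) : Pos := ⟨KRK.sw p.wk, KRK.sw p.wr, KRK.sw p.bk⟩

@[simp] theorem sw_sw (s : Sq) : sw (sw s) = s := rfl
@[simp] theorem pos_sw_sw (p : Pos) : p.sw.sw = p := rfl
theorem sw_inj {s t : Sq} : sw s = sw t ↔ s = t := by
  constructor
  · intro h; have := congrArg sw h; simpa using this
  · rintro rfl; rfl

theorem on_sw {m n : ℕ∞} {s : Sq} : On n m (sw s) ↔ On m n s := by
  unfold On sw; simp only; tauto
theorem near_sw {s t : Sq} : Near (sw s) (sw t) ↔ Near s t := by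
  unfold Near sw; simp only; tauto
theorem open_sw {s k t : Sq} : Open (sw s) (sw k) (sw t) ↔ Open s k t := by
  unfold Open sw; simp only; tauto

theorem wmove_sw {m n : ℕ∞} {p q : Pos} : WMove m n p q → WMove n m p.sw q.sw := by
  intro h
  rcases h with ⟨h1, h2, h3, h4, h5, h6, h7⟩ | ⟨h1, h2, h3, h4, h5, h6, h7⟩
  · left
    exact ⟨on_sw.2 h1, near_sw.2 h2, fun h => h3 (sw_inj.1 h), fun h => h4 (sw_inj.1 h),
      fun h => h5 (near_sw.1 h), sw_inj.2 h6, sw_inj.2 h7⟩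
  · right
    exact ⟨on_sw.2 h1, open_sw.2 h2, open_sw.2 h3, fun h => h4 (sw_inj.1 h),
      fun h => h5 (sw_inj.1 h), sw_inj.2 h6, sw_inj.2 h7⟩

theorem bmove_sw {m n : ℕ∞} {p q : Pos} : BMove m n p q → BMove n m p.sw q.sw := by
  rintro ⟨h1, h2, h3, h4, h5, h6, h7, h8⟩
  exact ⟨on_sw.2 h1, near_sw.2 h2, fun h => h3 (sw_inj.1 h), fun h => h4 (near_sw.1 h),
    fun h => h5 (sw_inj.1 h), fun h => h6 (open_sw.1 h), sw_inj.2 h7, sw_inj.2 h8⟩

theorem bcapture_sw {p : Pos} : BCapture p.sw → BCapture p := by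
  rintro ⟨h1, h2⟩
  exact ⟨near_sw.1 h1, fun h => h2 (near_sw.2 h)⟩

theorem bexit_sw {m n : ℕ∞} {p : Pos} : BExit n m p.sw → BExit m n p := by
  rintro (h | h)
  · exact Or.inr h
  · exact Or.inl h

theorem check_sw {p : Pos} : Check p → Check p.sw := fun h => open_sw.2 h

theorem ForcesMate.sw {m n : ℕ∞} {p : Pos} (h : ForcesMate m n p) : ForcesMate n m p.sw := by
  induction h with
  | mate p q h1 h2 h3 h4 h5 =>
    exact .mate _ q.sw (wmove_sw h1) (fun h => h2 (bcapture_sw h)) (fun h => h3 (bexit_sw h))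
      (check_sw h4) (fun r hr => h5 r.sw (by simpa using bmove_sw hr))
  | step p q h1 h2 h3 h4 h5 ih =>
    obtain ⟨r, hr⟩ := h4
    refine .step _ q.sw (wmove_sw h1) (fun h => h2 (bcapture_sw h)) (fun h => h3 (bexit_sw h))
      ⟨r.sw, bmove_sw hr⟩ ?_
    intro r hr
    have := ih r.sw (by simpa using bmove_sw hr)
    simpa using this

theorem MateIn.sw {m n : ℕ∞} : ∀ {k : ℕ} {p : Pos}, MateIn m n k p → MateIn n m k p.sw := by
  intro k
  induction k with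
  | zero => intro p h; exact h.elim
  | succ k ih =>
    rintro p ⟨q, h1, h2, h3, h4⟩
    refine ⟨q.sw, wmove_sw h1, fun h => h2 (bcapture_sw h), fun h => h3 (bexit_sw h), ?_⟩
    rcases h4 with ⟨h5, h6⟩ | ⟨⟨r, hr⟩, h6⟩
    · exact Or.inl ⟨check_sw h5, fun r hr => h6 r.sw (by simpa using bmove_sw hr)⟩
    · refine Or.inr ⟨⟨r.sw, bmove_sw hr⟩, fun r hr => ?_⟩
      have := ih (h6 r.sw (by simpa using bmove_sw hr))
      simpa using this

theorem On.mono {m n m' n' : ℕ∞} (hm : m ≤ m') (hn : n ≤ n') {s : Sq} (h : On m n s) :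
    On m' n' s := ⟨h.1, h.2.1, h.2.2.1.trans hm, h.2.2.2.trans hn⟩

theorem WMove.bk {m n : ℕ∞} {p q : Pos} (h : WMove m n p q) : q.bk = p.bk := by
  rcases h with h | h
  · exact h.2.2.2.2.2.2
  · exact h.2.2.2.2.2.2

theorem WMove.mono {m n m' n' : ℕ∞} (hm : m ≤ m') (hn : n ≤ n') {p q : Pos}
    (h : WMove m n p q) : WMove m' n' p q := by
  rcases h with h | h
  · exact Or.inl ⟨h.1.mono hm hn, h.2⟩
  · exact Or.inr ⟨h.1.mono hm hn, h.2⟩

theorem BMove.mono {m n m' n' : ℕ∞} (hm : m ≤ m') (hn : n ≤ n') {p q : Pos}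
    (h : BMove m n p q) : BMove m' n' p q := ⟨h.1.mono hm hn, h.2⟩

theorem lt_of_ne_le {a : ℕ} {m : ℕ∞} (h : (a : ℕ∞) ≤ m) (h' : (a : ℕ∞) ≠ m) {b : ℕ}
    (hb : b ≤ a + 1) : (b : ℕ∞) ≤ m := by
  have h2 : (a : ℕ∞) < m := lt_of_le_of_ne h h'
  have h3 : ((a + 1 : ℕ) : ℕ∞) ≤ m := by
    push_cast
    exact Order.add_one_le_of_lt h2
  exact le_trans (by exact_mod_cast hb) h3

theorem exit_mono {m n m' n' : ℕ∞} (hm : m ≤ m') (hn : n ≤ n') {q : Pos} (ho : On m n q.bk)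
    (h : BExit m' n' q) : BExit m n q := by
  rcases h with h | h
  · left
    exact le_antisymm ho.2.2.1 (hm.trans h.ge)
  · right
    exact le_antisymm ho.2.2.2 (hn.trans h.ge)

theorem bmove_restrict {m n m' n' : ℕ∞} {q r : Pos} (ho : On m n q.bk)
    (h3 : ¬ BExit m n q) (h : BMove m' n' q r) : BMove m n q r := by
  obtain ⟨h1, h2, h4⟩ := h
  refine ⟨⟨h1.1, h1.2.1, ?_, ?_⟩, h2, h4⟩
  · exact lt_of_ne_le ho.2.2.1 (fun h => h3 (Or.inl h)) h2.2.1
  · exact lt_of_ne_le ho.2.2.2 (fun h => h3 (Or.inr h)) h2.2.2.2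

theorem ForcesMate.mono {m n m' n' : ℕ∞} (hm : m ≤ m') (hn : n ≤ n') {p : Pos}
    (h : ForcesMate m n p) (ho : On m n p.bk) : ForcesMate m' n' p := by
  induction h with
  | mate p q h1 h2 h3 h4 h5 =>
    have hq : On m n q.bk := by rw [h1.bk]; exact ho
    exact .mate _ q (h1.mono hm hn) h2 (fun h => h3 (exit_mono hm hn hq h)) h4
      (fun r hr => h5 r (bmove_restrict hq h3 hr))
  | step p q h1 h2 h3 h4 h5 ih =>
    have hq : On m n q.bk := by rw [h1.bk]; exact ho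
    obtain ⟨r, hr⟩ := h4
    refine .step _ q (h1.mono hm hn) h2 (fun h => h3 (exit_mono hm hn hq h))
      ⟨r, hr.mono hm hn⟩ ?_
    intro r hr
    have hr' := bmove_restrict hq h3 hr
    exact ih r hr' hr'.1

/-- closure lemma: Black never gets mated -/
theorem not_forces {m n : ℕ∞} (Z : Pos → Prop)
    (hZ : ∀ p, Z p → ∀ q, WMove m n p q → BCapture q ∨ BExit m n q ∨
      ∃ r, BMove m n q r ∧ Z r) : ∀ p, Z p → ¬ ForcesMate m n p := by
  intro p hp h
  induction h with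
  | mate p q h1 h2 h3 h4 h5 =>
    rcases hZ p hp q h1 with h | h | ⟨r, hr, -⟩
    · exact h2 h
    · exact h3 h
    · exact h5 r hr
  | step p q h1 h2 h3 h4 h5 ih =>
    rcases hZ p hp q h1 with h | h | ⟨r, hr, hz⟩
    · exact h2 h
    · exact h3 h
    · exact ih r hr hz

end Pool.Agent.Helper226.KRK
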