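import Pool.Agent.Helper226.KRK.Bools

namespace Pool.Agent.Helper226.KRK

noncomputable section

/-- table entry for white to move: rank * 128 + move -/
def ent (T : Tr) (wkx wky wrx wry bkx bky : Nat) : Nat :=
  Nat.mod (Nat.shiftRight
    (T.get (Nat.add (Nat.mul (Nat.add (Nat.mul (Nat.add (Nat.mul wkx 16) wky) 16) bkx) 16) bky))
    (Nat.mul 13 (Nat.add (Nat.mul (Nat.pred wry) 9) (Nat.pred wrx)))) 8192

def rk (T : Tr) (wkx wky wrx wry bkx bky : Nat) : Nat := Nat.div (ent T wkx wky wrx wry bkx bky) 128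

/-- one black reply to (tx,ty) is handled -/
def tOK (T : Tr) (wkx wky wrx wry tx ty k : Nat) : Bool :=
  bor (Nat.beq tx 0) (bor (Nat.beq ty 0) (bor (nearB tx ty wkx wky)
    (bor (openB wrx wry wkx wky tx ty)
      (band (Nat.ble 1 (rk T wkx wky wrx wry tx ty)) (Nat.ble (Nat.succ (rk T wkx wky wrx wry tx ty)) k)))))

/-- the black reply to (tx,ty) is legal (on an unbounded board) -/
def tLeg (wkx wky wrx wry tx ty : Nat) : Bool :=
  band (Nat.ble 1 tx) (band (Nat.ble 1 ty) (band (bnot (nearB tx ty wkx wky))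
    (band (bnot (band (Nat.beq tx wrx) (Nat.beq ty wry))) (bnot (openB wrx wry wkx wky tx ty)))))

def cen (dx dy : Nat) : Bool := band (Nat.beq dx 1) (Nat.beq dy 1)

def blackOK (T : Tr) (wkx wky wrx wry bkx bky k : Nat) : Bool :=
  band (Nat.ble bkx 8) (band (Nat.ble bky 10)
    (band (bor (bnot (nearB bkx bky wrx wry)) (nearB wrx wry wkx wky))
      (band (allR 3 fun dx => allR 3 fun dy =>
        bor (cen dx dy) (tOK T wkx wky wrx wry (Nat.pred (Nat.add bkx dx)) (Nat.pred (Nat.add bky dy)) k))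
        (bor (openB wrx wry wkx wky bkx bky)
          (anyR 3 fun dx => anyR 3 fun dy => band (bnot (cen dx dy))
            (tLeg wkx wky wrx wry (Nat.pred (Nat.add bkx dx)) (Nat.pred (Nat.add bky dy))))))))

def kingOK (T : Tr) (wkx wky wrx wry bkx bky x y k : Nat) : Bool :=
  band (Nat.ble 1 x) (band (Nat.ble x 9) (band (Nat.ble 1 y) (band (Nat.ble y 11)
    (band (nearB wkx wky x y) (band (bnot (band (Nat.beq x wkx) (Nat.beq y wky)))
      (band (bnot (band (Nat.beq x wrx) (Nat.beq y wry)))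
        (band (bnot (nearB x y bkx bky)) (blackOK T x y wrx wry bkx bky k))))))))

def rookOK (T : Tr) (wkx wky wrx wry bkx bky x y k : Nat) : Bool :=
  band (Nat.ble 1 x) (band (Nat.ble x 9) (band (Nat.ble 1 y) (band (Nat.ble y 11)
    (band (openB wrx wry wkx wky x y) (band (openB wrx wry bkx bky x y)
      (band (bnot (band (Nat.beq x wkx) (Nat.beq y wky)))
        (band (bnot (band (Nat.beq x bkx) (Nat.beq y bky)))
          (blackOK T wkx wky x y bkx bky k))))))))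

def chkE (T : Tr) (wkx wky wrx wry bkx bky : Nat) : Bool :=
  bor (Nat.ble (ent T wkx wky wrx wry bkx bky) 127)
    (bif' (Nat.ble 9 (Nat.mod (ent T wkx wky wrx wry bkx bky) 128))
      (rookOK T wkx wky wrx wry bkx bky
        (Nat.succ (Nat.mod (Nat.sub (Nat.mod (ent T wkx wky wrx wry bkx bky) 128) 9) 9))
        (Nat.succ (Nat.div (Nat.sub (Nat.mod (ent T wkx wky wrx wry bkx bky) 128) 9) 9))
        (Nat.div (ent T wkx wky wrx wry bkx bky) 128))
      (kingOK T wkx wky wrx wry bkx bky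
        (Nat.pred (Nat.add wkx (Nat.mod (Nat.mod (ent T wkx wky wrx wry bkx bky) 128) 3)))
        (Nat.pred (Nat.add wky (Nat.div (Nat.mod (ent T wkx wky wrx wry bkx bky) 128) 3)))
        (Nat.div (ent T wkx wky wrx wry bkx bky) 128)))

def chkPair (T : Tr) (wkx wky bkx bky : Nat) : Bool :=
  bor (Nat.beq (T.get (Nat.add (Nat.mul (Nat.add (Nat.mul (Nat.add (Nat.mul wkx 16) wky) 16) bkx) 16) bky)) 0)
    (allR 9 fun x => allR 11 fun y => chkE T wkx wky (Nat.succ x) (Nat.succ y) bkx bky)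

def chkWk (T : Tr) (wkx wky : Nat) : Bool :=
  allR 9 fun x => allR 11 fun y => chkPair T wkx wky (Nat.succ x) (Nat.succ y)

def InR (p : Pos) : Prop :=
  1 ≤ p.wk.1 ∧ p.wk.1 ≤ 9 ∧ 1 ≤ p.wk.2 ∧ p.wk.2 ≤ 11 ∧
  1 ≤ p.wr.1 ∧ p.wr.1 ≤ 9 ∧ 1 ≤ p.wr.2 ∧ p.wr.2 ≤ 11 ∧
  1 ≤ p.bk.1 ∧ p.bk.1 ≤ 9 ∧ 1 ≤ p.bk.2 ∧ p.bk.2 ≤ 11

def rkP (T : Tr) (p : Pos) : Nat := rk T p.wk.1 p.wk.2 p.wr.1 p.wr.2 p.bk.1 p.bk.2

theorem on_of {m n : ℕ∞} (hm : 9 ≤ m) (hn : 11 ≤ n) {x y : ℕ} (h1 : 1 ≤ x) (h2 : x ≤ 9)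
    (h3 : 1 ≤ y) (h4 : y ≤ 11) : On m n (x, y) :=
  ⟨h1, h3, le_trans (by exact_mod_cast h2) hm, le_trans (by exact_mod_cast h4) hn⟩

theorem blackOK_spec {T : Tr} {m n : ℕ∞} (hm : 9 ≤ m) (hn : 11 ≤ n) {q : Pos} {k : Nat}
    (hq : InR q)
    (h : blackOK T q.wk.1 q.wk.2 q.wr.1 q.wr.2 q.bk.1 q.bk.2 k = true) :
    ¬ BCapture q ∧ ¬ BExit m n q ∧ (∀ r, BMove m n q r → InR r ∧ 1 ≤ rkP T r ∧ rkP T r < k) ∧
      (Check q ∨ ∃ r, BMove m n q r) := by
  obtain ⟨⟨a, b⟩, ⟨c, d⟩, ⟨e, f⟩⟩ := q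
  simp only [blackOK, band_true, bor_true, bnot_true, allR_true, anyR_true, Nat.ble_eq,
    nearB_true, openB_true, cen, Nat.beq_eq, tLeg, tOK, Nat.pred_eq_sub_one, Nat.add_eq,
    Nat.succ_eq_add_one] at h
  obtain ⟨h1, h2, h3, h4, h5⟩ := h
  unfold InR at hq
  simp only at hq
  refine ⟨?_, ?_, ?_, ?_⟩
  · rintro ⟨hc1, hc2⟩
    unfold Near at hc1 hc2
    simp only at hc1 hc2
    rcases h3 with h3 | h3
    · exact h3 hc1
    · exact hc2 h3
  · rintro (hx | hx)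
    · simp only at hx
      have : (9 : ℕ∞) ≤ (e : ℕ∞) := hx ▸ hm
      have : (9 : ℕ) ≤ e := by exact_mod_cast this
      omega
    · simp only at hx
      have : (11 : ℕ∞) ≤ (f : ℕ∞) := hx ▸ hn
      have : (11 : ℕ) ≤ f := by exact_mod_cast this
      omega
  · rintro ⟨⟨a', b'⟩, ⟨c', d'⟩, ⟨x, y⟩⟩ ⟨g1, g2, g3, g4, g5, g6, g7, g8⟩
    simp only [Prod.mk.injEq] at g7 g8
    obtain ⟨rfl, rfl⟩ := g7
    obtain ⟨rfl, rfl⟩ := g8
    have g1x := g1.1
    have g1y := g1.2.1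
    simp only at g1x g1y
    unfold Near at g2 g4
    simp only at g2 g4
    have hh := h4 (x + 1 - e) (by omega) (y + 1 - f) (by omega)
    have ex : e + (x + 1 - e) - 1 = x := by omega
    have ey : f + (y + 1 - f) - 1 = y := by omega
    rw [ex, ey] at hh
    refine ⟨?_, ?_⟩
    · unfold InR; simp only; omega
    · rcases hh with hh | hh | hh | hh | hh | hh
      · exfalso; apply g3
        simp only [Prod.mk.injEq]; omega
      · omega
      · omega
      · exact absurd hh g4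
      · exact absurd hh g6
      · unfold rkP; simp only; omega
  · rcases h5 with h5 | ⟨dx, hdx, dy, hdy, hc, l1, l2, l3, l4, l5⟩
    · exact Or.inl h5
    · right
      refine ⟨⟨⟨a, b⟩, ⟨c, d⟩, ⟨e + dx - 1, f + dy - 1⟩⟩, ?_, ?_, ?_, ?_, ?_, ?_, rfl, rfl⟩
      · exact on_of hm hn l1 (by omega) l2 (by omega)
      · unfold Near; simp only; omega
      · simp only [ne_eq, Prod.mk.injEq]; omega
      · unfold Near; simp only; exact l3
      · simp only [ne_eq, Prod.mk.injEq]; exact l4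
      · exact l5

theorem win_of_chk {T : Tr} {m n : ℕ∞} (hm : 9 ≤ m) (hn : 11 ≤ n)
    (H : ∀ p : Pos, InR p → chkE T p.wk.1 p.wk.2 p.wr.1 p.wr.2 p.bk.1 p.bk.2 = true) :
    ∀ k p, InR p → 1 ≤ rkP T p → rkP T p ≤ k → MateIn m n k p := by
  intro k
  induction k with
  | zero => intro p _ h1 h2; omega
  | succ k ih =>
    intro p hp h1 h2
    have key : ∀ q : Pos, InR q → WMove m n p q →
        blackOK T q.wk.1 q.wk.2 q.wr.1 q.wr.2 q.bk.1 q.bk.2 (rkP T p) = true →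
        MateIn m n (k + 1) p := by
      intro q hq hw hb
      obtain ⟨b1, b2, b3, b4⟩ := blackOK_spec hm hn hq hb
      refine ⟨q, hw, b1, b2, ?_⟩
      by_cases hr : ∃ r, BMove m n q r
      · refine Or.inr ⟨hr, fun r hr' => ?_⟩
        obtain ⟨c1, c2, c3⟩ := b3 r hr'
        exact ih r c1 c2 (by omega)
      · rcases b4 with b4 | b4
        · exact Or.inl ⟨b4, fun r hr' => hr ⟨r, hr'⟩⟩
        · exact absurd b4 hr
    have hH := H p hp
    obtain ⟨⟨a, b⟩, ⟨c, d⟩, ⟨e, f⟩⟩ := p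
    unfold InR at hp
    simp only at hp
    have hk : rkP T ⟨⟨a, b⟩, ⟨c, d⟩, ⟨e, f⟩⟩ = ent T a b c d e f / 128 := rfl
    rw [hk] at h1
    have hrook : ∀ x y, rookOK T a b c d e f x y (ent T a b c d e f / 128) = true →
        MateIn m n (k + 1) ⟨⟨a, b⟩, ⟨c, d⟩, ⟨e, f⟩⟩ := by
      intro x y h
      simp only [rookOK, band_true, bnot_true, Nat.ble_eq, openB_true, Nat.beq_eq] at h
      obtain ⟨g1, g2, g3, g4, g5, g6, g7, g8, g9⟩ := h
      refine key ⟨⟨a, b⟩, ⟨x, y⟩, ⟨e, f⟩⟩ ?_ ?_ g9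
      · unfold InR; simp only; omega
      · right
        refine ⟨on_of hm hn g1 g2 g3 g4, g5, g6, ?_, ?_, rfl, rfl⟩
        · simp only [ne_eq, Prod.mk.injEq]; exact g7
        · simp only [ne_eq, Prod.mk.injEq]; exact g8
    have hking : ∀ x y, kingOK T a b c d e f x y (ent T a b c d e f / 128) = true →
        MateIn m n (k + 1) ⟨⟨a, b⟩, ⟨c, d⟩, ⟨e, f⟩⟩ := by
      intro x y h
      simp only [kingOK, band_true, bnot_true, Nat.ble_eq, nearB_true, Nat.beq_eq] at h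
      obtain ⟨g1, g2, g3, g4, g5, g6, g7, g8, g9⟩ := h
      refine key ⟨⟨x, y⟩, ⟨c, d⟩, ⟨e, f⟩⟩ ?_ ?_ g9
      · unfold InR; simp only; omega
      · left
        refine ⟨on_of hm hn g1 g2 g3 g4, ?_, ?_, ?_, ?_, rfl, rfl⟩
        · unfold Near; simp only; exact g5
        · simp only [ne_eq, Prod.mk.injEq]; exact g6
        · simp only [ne_eq, Prod.mk.injEq]; exact g7
        · unfold Near; simp only; exact g8
    simp only [chkE, bor_true, bif_true, Nat.ble_eq] at hH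
    rcases hH with hH | hH
    · exfalso
      have : ent T a b c d e f / 128 = 0 := Nat.div_eq_of_lt (by omega)
      omega
    · by_cases h9 : 9 ≤ Nat.mod (ent T a b c d e f) 128
      · exact hrook _ _ (hH.1 h9)
      · exact hking _ _ (hH.2 h9)

theorem chk_of_wk {T : Tr} (H : ∀ x, x < 9 → ∀ y, y < 11 → chkWk T (x + 1) (y + 1) = true) :
    ∀ p : Pos, InR p → chkE T p.wk.1 p.wk.2 p.wr.1 p.wr.2 p.bk.1 p.bk.2 = true := by
  rintro ⟨⟨a, b⟩, ⟨c, d⟩, ⟨e, f⟩⟩ hp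
  unfold InR at hp
  simp only at hp ⊢
  have h := H (a - 1) (by omega) (b - 1) (by omega)
  rw [show a - 1 + 1 = a by omega, show b - 1 + 1 = b by omega] at h
  simp only [chkWk, allR_true] at h
  have h := h (e - 1) (by omega) (f - 1) (by omega)
  simp only [chkPair, bor_true, allR_true, Nat.beq_eq, Nat.succ_eq_add_one] at h
  rw [show e - 1 + 1 = e by omega, show f - 1 + 1 = f by omega] at h
  rcases h with h | h
  · simp only [chkE, bor_true]
    left
    simp only [ent, h, Nat.ble_eq]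
    have : Nat.mod (Nat.shiftRight 0 (Nat.mul 13 (Nat.add (Nat.mul (Nat.pred d) 9) (Nat.pred c)))) 8192 = 0 := by
      have h0 : Nat.shiftRight 0 (Nat.mul 13 (Nat.add (Nat.mul (Nat.pred d) 9) (Nat.pred c))) = 0 :=
        Nat.zero_shiftRight _
      rw [h0]
    rw [this]; exact Nat.zero_le _
  · have h := h (c - 1) (by omega) (d - 1) (by omega)
    rw [show c - 1 + 1 = c by omega, show d - 1 + 1 = d by omega] at h
    exact h

end

end Pool.Agent.Helper226.KRK
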