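import Pool.Agent.Helper226.KRK.Win
import Pool.Agent.Helper226.KRK.WinData

namespace Pool.Agent.Helper226.KRK

set_option maxRecDepth 100000

theorem c1_1 : chkWk WT 1 1 = true := by decide +kernel
theorem c1_2 : chkWk WT 1 2 = true := by decide +kernel
theorem c1_3 : chkWk WT 1 3 = true := by decide +kernel
theorem c1_4 : chkWk WT 1 4 = true := by decide +kernel
theorem c1_5 : chkWk WT 1 5 = true := by decide +kernel
theorem c1_6 : chkWk WT 1 6 = true := by decide +kernel
theorem c1_7 : chkWk WT 1 7 = true := by decide +kernel
theorem c1_8 : chkWk WT 1 8 = true := by decide +kernel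
theorem c1_9 : chkWk WT 1 9 = true := by decide +kernel
theorem c1_10 : chkWk WT 1 10 = true := by decide +kernel
theorem c1_11 : chkWk WT 1 11 = true := by decide +kernel
theorem c2_1 : chkWk WT 2 1 = true := by decide +kernel
theorem c2_2 : chkWk WT 2 2 = true := by decide +kernel
theorem c2_3 : chkWk WT 2 3 = true := by decide +kernel
theorem c2_4 : chkWk WT 2 4 = true := by decide +kernel
theorem c2_5 : chkWk WT 2 5 = true := by decide +kernel
theorem c2_6 : chkWk WT 2 6 = true := by decide +kernel
theorem c2_7 : chkWk WT 2 7 = true := by decide +kernel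
theorem c2_8 : chkWk WT 2 8 = true := by decide +kernel
theorem c2_9 : chkWk WT 2 9 = true := by decide +kernel
theorem c2_10 : chkWk WT 2 10 = true := by decide +kernel
theorem c2_11 : chkWk WT 2 11 = true := by decide +kernel
theorem c3_1 : chkWk WT 3 1 = true := by decide +kernel
theorem c3_2 : chkWk WT 3 2 = true := by decide +kernel
theorem c3_3 : chkWk WT 3 3 = true := by decide +kernel
theorem c3_4 : chkWk WT 3 4 = true := by decide +kernel
theorem c3_5 : chkWk WT 3 5 = true := by decide +kernel
theorem c3_6 : chkWk WT 3 6 = true := by decide +kernel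
theorem c3_7 : chkWk WT 3 7 = true := by decide +kernel
theorem c3_8 : chkWk WT 3 8 = true := by decide +kernel
theorem c3_9 : chkWk WT 3 9 = true := by decide +kernel
theorem c3_10 : chkWk WT 3 10 = true := by decide +kernel
theorem c3_11 : chkWk WT 3 11 = true := by decide +kernel
theorem c4_1 : chkWk WT 4 1 = true := by decide +kernel
theorem c4_2 : chkWk WT 4 2 = true := by decide +kernel
theorem c4_3 : chkWk WT 4 3 = true := by decide +kernel
theorem c4_4 : chkWk WT 4 4 = true := by decide +kernel
theorem c4_5 : chkWk WT 4 5 = true := by decide +kernel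
theorem c4_6 : chkWk WT 4 6 = true := by decide +kernel
theorem c4_7 : chkWk WT 4 7 = true := by decide +kernel
theorem c4_8 : chkWk WT 4 8 = true := by decide +kernel
theorem c4_9 : chkWk WT 4 9 = true := by decide +kernel
theorem c4_10 : chkWk WT 4 10 = true := by decide +kernel
theorem c4_11 : chkWk WT 4 11 = true := by decide +kernel
theorem c5_1 : chkWk WT 5 1 = true := by decide +kernel
theorem c5_2 : chkWk WT 5 2 = true := by decide +kernel
theorem c5_3 : chkWk WT 5 3 = true := by decide +kernel
theorem c5_4 : chkWk WT 5 4 = true := by decide +kernel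
theorem c5_5 : chkWk WT 5 5 = true := by decide +kernel
theorem c5_6 : chkWk WT 5 6 = true := by decide +kernel
theorem c5_7 : chkWk WT 5 7 = true := by decide +kernel
theorem c5_8 : chkWk WT 5 8 = true := by decide +kernel
theorem c5_9 : chkWk WT 5 9 = true := by decide +kernel
theorem c5_10 : chkWk WT 5 10 = true := by decide +kernel
theorem c5_11 : chkWk WT 5 11 = true := by decide +kernel
theorem c6_1 : chkWk WT 6 1 = true := by decide +kernel
theorem c6_2 : chkWk WT 6 2 = true := by decide +kernel
theorem c6_3 : chkWk WT 6 3 = true := by decide +kernel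
theorem c6_4 : chkWk WT 6 4 = true := by decide +kernel
theorem c6_5 : chkWk WT 6 5 = true := by decide +kernel
theorem c6_6 : chkWk WT 6 6 = true := by decide +kernel
theorem c6_7 : chkWk WT 6 7 = true := by decide +kernel
theorem c6_8 : chkWk WT 6 8 = true := by decide +kernel
theorem c6_9 : chkWk WT 6 9 = true := by decide +kernel
theorem c6_10 : chkWk WT 6 10 = true := by decide +kernel
theorem c6_11 : chkWk WT 6 11 = true := by decide +kernel
theorem c7_1 : chkWk WT 7 1 = true := by decide +kernel
theorem c7_2 : chkWk WT 7 2 = true := by decide +kernel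
theorem c7_3 : chkWk WT 7 3 = true := by decide +kernel
theorem c7_4 : chkWk WT 7 4 = true := by decide +kernel
theorem c7_5 : chkWk WT 7 5 = true := by decide +kernel
theorem c7_6 : chkWk WT 7 6 = true := by decide +kernel
theorem c7_7 : chkWk WT 7 7 = true := by decide +kernel
theorem c7_8 : chkWk WT 7 8 = true := by decide +kernel
theorem c7_9 : chkWk WT 7 9 = true := by decide +kernel
theorem c7_10 : chkWk WT 7 10 = true := by decide +kernel
theorem c7_11 : chkWk WT 7 11 = true := by decide +kernel
theorem c8_1 : chkWk WT 8 1 = true := by decide +kernel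
theorem c8_2 : chkWk WT 8 2 = true := by decide +kernel
theorem c8_3 : chkWk WT 8 3 = true := by decide +kernel
theorem c8_4 : chkWk WT 8 4 = true := by decide +kernel
theorem c8_5 : chkWk WT 8 5 = true := by decide +kernel
theorem c8_6 : chkWk WT 8 6 = true := by decide +kernel
theorem c8_7 : chkWk WT 8 7 = true := by decide +kernel
theorem c8_8 : chkWk WT 8 8 = true := by decide +kernel
theorem c8_9 : chkWk WT 8 9 = true := by decide +kernel
theorem c8_10 : chkWk WT 8 10 = true := by decide +kernel
theorem c8_11 : chkWk WT 8 11 = true := by decide +kernel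
theorem c9_1 : chkWk WT 9 1 = true := by decide +kernel
theorem c9_2 : chkWk WT 9 2 = true := by decide +kernel
theorem c9_3 : chkWk WT 9 3 = true := by decide +kernel
theorem c9_4 : chkWk WT 9 4 = true := by decide +kernel
theorem c9_5 : chkWk WT 9 5 = true := by decide +kernel
theorem c9_6 : chkWk WT 9 6 = true := by decide +kernel
theorem c9_7 : chkWk WT 9 7 = true := by decide +kernel
theorem c9_8 : chkWk WT 9 8 = true := by decide +kernel
theorem c9_9 : chkWk WT 9 9 = true := by decide +kernel
theorem c9_10 : chkWk WT 9 10 = true := by decide +kernel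
theorem c9_11 : chkWk WT 9 11 = true := by decide +kernel

theorem chkAll : ∀ x, x < 9 → ∀ y, y < 11 → chkWk WT (x + 1) (y + 1) = true := by
  intro x hx y hy
  interval_cases x <;> interval_cases y
  · exact c1_1
  · exact c1_2
  · exact c1_3
  · exact c1_4
  · exact c1_5
  · exact c1_6
  · exact c1_7
  · exact c1_8
  · exact c1_9
  · exact c1_10
  · exact c1_11
  · exact c2_1
  · exact c2_2
  · exact c2_3
  · exact c2_4
  · exact c2_5
  · exact c2_6
  · exact c2_7
  · exact c2_8
  · exact c2_9
  · exact c2_10
  · exact c2_11
  · exact c3_1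
  · exact c3_2
  · exact c3_3
  · exact c3_4
  · exact c3_5
  · exact c3_6
  · exact c3_7
  · exact c3_8
  · exact c3_9
  · exact c3_10
  · exact c3_11
  · exact c4_1
  · exact c4_2
  · exact c4_3
  · exact c4_4
  · exact c4_5
  · exact c4_6
  · exact c4_7
  · exact c4_8
  · exact c4_9
  · exact c4_10
  · exact c4_11
  · exact c5_1
  · exact c5_2
  · exact c5_3
  · exact c5_4
  · exact c5_5
  · exact c5_6
  · exact c5_7
  · exact c5_8
  · exact c5_9
  · exact c5_10
  · exact c5_11
  · exact c6_1
  · exact c6_2
  · exact c6_3
  · exact c6_4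
  · exact c6_5
  · exact c6_6
  · exact c6_7
  · exact c6_8
  · exact c6_9
  · exact c6_10
  · exact c6_11
  · exact c7_1
  · exact c7_2
  · exact c7_3
  · exact c7_4
  · exact c7_5
  · exact c7_6
  · exact c7_7
  · exact c7_8
  · exact c7_9
  · exact c7_10
  · exact c7_11
  · exact c8_1
  · exact c8_2
  · exact c8_3
  · exact c8_4
  · exact c8_5
  · exact c8_6
  · exact c8_7
  · exact c8_8
  · exact c8_9
  · exact c8_10
  · exact c8_11
  · exact c9_1
  · exact c9_2
  · exact c9_3
  · exact c9_4
  · exact c9_5
  · exact c9_6
  · exact c9_7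
  · exact c9_8
  · exact c9_9
  · exact c9_10
  · exact c9_11

theorem rk_start : rkP WT start = 39 := by decide +kernel

theorem mateIn_39 {m n : ℕ∞} (hm : 9 ≤ m) (hn : 11 ≤ n) : MateIn m n 39 start := by
  refine win_of_chk hm hn (chk_of_wk chkAll) 39 start ?_ ?_ ?_
  · unfold InR start; simp only; omega
  · rw [rk_start]; omega
  · rw [rk_start]

end Pool.Agent.Helper226.KRK
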